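import Mathlib
import Pool.Agent.Helper69.DC.Goals2
import Pool.Agent.Helper33.DC.E
import Pool.Agent.Helper53.DC.AJO

/-!
# The kappa lemma with several windows

Along the line through the null point the orthogonality relation is expanded in the parameter of
the line, with the last coordinate of the orthogonal point developed by Taylor's formula around its
value on the hyperplane; a linear functional applied to the resulting polynomial identity gives the
divisibility directly.
-/

namespace Pool.Agent.Helper68.DC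

open MvPolynomial Finset ComplexConjugate Pool.Agent.Helper69.DC

/-- A vanishing polynomial function is killed by every functional on the coefficients. -/
theorem func_zero (I J : ℕ) (h : ℕ → ℕ → ℂ) (w : ℕ → ℂ)
    (hz : ∀ s : ℂ, ∑ i ∈ range I, ∑ j ∈ range J, s ^ (i + j) * h i j = 0) :
    ∑ i ∈ range I, ∑ j ∈ range J, w (i + j) * h i j = 0 := by
  have h1 : (∑ i ∈ range I, ∑ j ∈ range J, Polynomial.C (h i j) * Polynomial.X ^ (i + j) :
      Polynomial ℂ) = 0 := by
    apply Polynomial.funext
    intro s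
    rw [Polynomial.eval_finsetSum, Polynomial.eval_zero, ← hz s]
    refine sum_congr rfl fun i _ => ?_
    rw [Polynomial.eval_finsetSum]
    refine sum_congr rfl fun j _ => ?_
    simp only [Polynomial.eval_mul, Polynomial.eval_C, Polynomial.eval_pow, Polynomial.eval_X]
    ring
  have h2 : ∀ n, ∑ i ∈ range I, ∑ j ∈ range J, (if n = i + j then h i j else 0) = 0 := by
    intro n
    have h3 := congrArg (fun p : Polynomial ℂ => p.coeff n) h1
    simp only [Polynomial.finsetSum_coeff, Polynomial.coeff_C_mul, Polynomial.coeff_X_pow,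
      Polynomial.coeff_zero, mul_ite, mul_one, mul_zero] at h3
    exact h3
  have h4 : ∑ n ∈ range (I + J), w n * ∑ i ∈ range I, ∑ j ∈ range J,
      (if n = i + j then h i j else 0) = 0 := sum_eq_zero fun n _ => by rw [h2 n, mul_zero]
  rw [← h4]
  simp only [mul_sum]
  symm
  rw [sum_comm]
  refine sum_congr rfl fun i hi => ?_
  rw [sum_comm]
  refine sum_congr rfl fun j hj => ?_
  rw [sum_eq_single (i + j)]
  · rw [if_pos rfl]
  · intro n _ hn
    rw [if_neg hn, mul_zero]
  · intro hn
    exact absurd (mem_range.2 (by have := mem_range.1 hi; have := mem_range.1 hj; omega)) hn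

/-- The last coordinate on the hyperplane orthogonal to `(β, a)`. -/
noncomputable def e0 {m : ℕ} (β : Fin m → ℂ) (a : ℂ) : MvPolynomial (Fin m) ℂ :=
  ∑ i, C (conj (β i)) * X i - C (conj a)

/-- Expansion in the last coordinate around `e0`. -/
noncomputable def ta {m : ℕ} (β : Fin m → ℂ) (a : ℂ) :
    MvPolynomial (Fin m ⊕ Unit) ℂ →ₐ[ℂ] Polynomial (MvPolynomial (Fin m) ℂ) :=
  aeval (Sum.elim (fun i => Polynomial.C (X i)) fun _ => Polynomial.C (e0 β a) + Polynomial.X)

theorem eval_ta {m : ℕ} (β : Fin m → ℂ) (a : ℂ) (p : MvPolynomial (Fin m ⊕ Unit) ℂ)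
    (η : Fin m → ℂ) (u : ℂ) :
    eval (Sum.elim η fun _ => eval η (e0 β a) + u) p =
      Polynomial.eval u (Polynomial.map (eval η) (ta β a p)) := by
  induction p using MvPolynomial.induction_on with
  | C c =>
    have : ta β a (C c) = Polynomial.C (C c) := by
      unfold ta
      rw [aeval_C]
      rfl
    rw [this]
    simp
  | add p q hp hq => rw [map_add, map_add, Polynomial.map_add, Polynomial.eval_add, hp, hq]
  | mul_X p s hp =>
    rw [map_mul, map_mul, Polynomial.map_mul, Polynomial.eval_mul, hp]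
    congr 1
    rcases s with i | i
    · simp [ta]
    · simp [ta]

theorem eval_ta_sum {m : ℕ} (β : Fin m → ℂ) (a : ℂ) (p : MvPolynomial (Fin m ⊕ Unit) ℂ)
    (η : Fin m → ℂ) (u : ℂ) (I : ℕ) (hI : (ta β a p).natDegree < I) :
    eval (Sum.elim η fun _ => eval η (e0 β a) + u) p =
      ∑ i ∈ range I, u ^ i * eval η ((ta β a p).coeff i) := by
  rw [eval_ta, Polynomial.eval_map, Polynomial.eval₂_eq_sum_range' _ hI]
  exact sum_congr rfl fun i _ => mul_comm _ _

theorem eval_e0 {m : ℕ} (β : Fin m → ℂ) (a : ℂ) (η : Fin m → ℂ) :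
    eval η (e0 β a) = ∑ i, η i * conj (β i) - conj a := by
  unfold e0
  simp only [map_sub, map_sum, map_mul, eval_C, eval_X]
  congr 1
  exact sum_congr rfl fun i _ => mul_comm _ _

theorem eval_xp {m : ℕ} (β v η : Fin m → ℂ) :
    eval η (xp β v) = ∑ i, conj (v i) * (η i - β i) := by
  unfold xp
  simp

/-- The coefficient polynomial paired with a vector. -/
noncomputable def gq {m N : ℕ} (f : Fin (N + 1) → MvPolynomial (Fin m ⊕ Unit) ℂ) (β : Fin m → ℂ)
    (a : ℂ) (i : ℕ) (c : Fin (N + 1) → ℂ) : MvPolynomial (Fin m) ℂ :=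
  C (conj (c 0)) * (ta β a (f 0)).coeff i -
    ∑ j : Fin N, C (conj (c j.succ)) * (ta β a (f j.succ)).coeff i

theorem eval_gq {m N : ℕ} (f : Fin (N + 1) → MvPolynomial (Fin m ⊕ Unit) ℂ) (β : Fin m → ℂ)
    (a : ℂ) (i : ℕ) (c : Fin (N + 1) → ℂ) (η : Fin m → ℂ) :
    eval η (gq f β a i c) = hf (fun k => eval η ((ta β a (f k)).coeff i)) c := by
  unfold gq hf
  simp only [map_sub, map_mul, eval_C, map_sum]
  congr 1
  · ring
  · refine sum_congr rfl fun j _ => ?_
    ring

theorem gq_zero {m N : ℕ} (f : Fin (N + 1) → MvPolynomial (Fin m ⊕ Unit) ℂ) (β : Fin m → ℂ)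
    (a : ℂ) (i : ℕ) : gq f β a i 0 = 0 := by
  unfold gq
  simp

theorem hf_sum_left {N : ℕ} (I : ℕ) (u : ℂ) (F : ℕ → Fin (N + 1) → ℂ) (y : Fin (N + 1) → ℂ) :
    hf (fun k => ∑ i ∈ range I, u ^ i * F i k) y = ∑ i ∈ range I, u ^ i * hf (F i) y := by
  unfold hf
  simp only [mul_sub, sum_sub_distrib, sum_mul]
  congr 1
  · exact sum_congr rfl fun i _ => by ring
  · rw [sum_comm]
    refine sum_congr rfl fun i _ => ?_
    rw [mul_sum]
    exact sum_congr rfl fun j _ => by ring

/-- The `κ` lemma with `q` windows. -/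
theorem h_ei : Pool.Agent.Helper69.DC.H_EI := by
  intro m N d f hf' β a hnull v q κ hκ
  obtain ⟨-, -, -, -, hAs⟩ := Pool.Agent.Helper53.DC.g_ajo m N d f hf' β a hnull
  obtain ⟨A, hA⟩ : ∃ A : ℕ → Fin (N + 1) → ℂ, A = AJ f β a v := ⟨_, rfl⟩
  have hAt : ∀ t : ℂ, ∑ j ∈ range (d + 1), t ^ j • A j =
      fv f (fun i => β i + t * v i) (a + t * ∑ i, v i * conj (β i)) := fun t => by
    rw [hA]
    exact hAs v t
  have hκ' : ∀ l < q, ∑ j ∈ range (d + 1), κ (j + l) • A j = 0 := by
    rw [hA]
    exact hκ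
  have hc : ∑ j ∈ range d, κ j • AJ f β a v (j + 1) = ∑ j ∈ range d, κ j • A (j + 1) := by
    rw [hA]
  rw [hc]
  -- a bound for the degrees
  obtain ⟨I, hI⟩ : ∃ I : ℕ, ∀ k, (ta β a (f k)).natDegree < I + 1 := by
    refine ⟨univ.sup fun k => (ta β a (f k)).natDegree, fun k => ?_⟩
    have : (ta β a (f k)).natDegree ≤ univ.sup fun k => (ta β a (f k)).natDegree :=
      le_sup (f := fun k => (ta β a (f k)).natDegree) (mem_univ k)
    omega
  -- the identity
  have main : hq f β (conj a) (∑ j ∈ range d, κ j • A (j + 1)) =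
      - ∑ i ∈ range I, xp β v ^ (i + 1) *
        gq f β a (i + 1) (∑ j ∈ range (d + 1), κ (j + i) • A j) := by
    apply MvPolynomial.funext
    intro η
    rw [Helper33.DC.eval_hq, map_neg, map_sum]
    simp only [map_mul, map_pow, eval_gq]
    obtain ⟨F, hF⟩ : ∃ F : ℕ → Fin (N + 1) → ℂ,
      F = fun i k => eval η ((ta β a (f k)).coeff i) := ⟨_, rfl⟩
    obtain ⟨x, hx⟩ : ∃ x : ℂ, x = eval η (xp β v) := ⟨_, rfl⟩
    have hfvu : ∀ u : ℂ, fv f η (∑ i, η i * conj (β i) - conj a + u) =
        fun k => ∑ i ∈ range (I + 1), u ^ i * F i k := by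
      intro u
      funext k
      unfold fv
      rw [← eval_e0, eval_ta_sum β a (f k) η u (I + 1) (hI k), hF]
    have hF0 : fv f η (∑ i, η i * conj (β i) - conj a) = F 0 := by
      have h1 := hfvu 0
      rw [add_zero] at h1
      rw [h1]
      funext k
      rw [sum_range_succ']
      simp
    have key : ∀ s : ℂ, ∑ i ∈ range (I + 1), ∑ j ∈ range (d + 1),
        s ^ (i + j) * (x ^ i * hf (F i) (A j)) = 0 := by
      intro s
      have h1 : hf (fv f η (∑ i, η i * conj (β i) - conj a + s * x))
          (∑ j ∈ range (d + 1), conj s ^ j • A j) = 0 := by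
        rw [hAt (conj s)]
        apply hf'.orth
        rw [hx, eval_xp]
        have e1 : conj (a + conj s * ∑ i, v i * conj (β i)) =
            conj a + s * ∑ i, conj (v i) * β i := by
          rw [map_add, map_mul, map_sum, Complex.conj_conj]
          congr 2
          refine sum_congr rfl fun i _ => ?_
          rw [map_mul, Complex.conj_conj]
        have e2 : ∑ i, η i * conj (β i + conj s * v i) =
            ∑ i, η i * conj (β i) + s * ∑ i, conj (v i) * η i := by
          rw [mul_sum, ← sum_add_distrib]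
          refine sum_congr rfl fun i _ => ?_
          rw [map_add, map_mul, Complex.conj_conj]
          ring
        have e3 : ∑ i, conj (v i) * (η i - β i) =
            ∑ i, conj (v i) * η i - ∑ i, conj (v i) * β i := by
          rw [← sum_sub_distrib]
          exact sum_congr rfl fun i _ => by ring
        rw [e1, e2, e3]
        ring
      rw [hfvu, hf_sum_left] at h1
      rw [← h1]
      refine sum_congr rfl fun i _ => ?_
      rw [Helper33.DC.hf_sum (F i) (range (d + 1)) (fun j => conj s ^ j) A, mul_sum]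
      refine sum_congr rfl fun j _ => ?_
      rw [map_pow, Complex.conj_conj]
      ring
    have h2 := func_zero (I + 1) (d + 1) (fun i j => x ^ i * hf (F i) (A j))
      (fun n => Nat.casesOn n 0 fun k => conj (κ k)) key
    rw [sum_range_succ'] at h2
    have h3 : ∑ j ∈ range (d + 1), (Nat.casesOn (0 + j) 0 fun k => conj (κ k) : ℂ) *
        (x ^ 0 * hf (F 0) (A j)) = hf (F 0) (∑ j ∈ range d, κ j • A (j + 1)) := by
      rw [Helper33.DC.hf_sum (F 0) (range d) κ fun j => A (j + 1), sum_range_succ']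
      have h4 : (Nat.casesOn (0 + 0) 0 fun k => conj (κ k) : ℂ) = 0 := rfl
      rw [h4, zero_mul, add_zero]
      refine sum_congr rfl fun j _ => ?_
      rw [pow_zero, one_mul, zero_add]
    have h5 : ∀ i ∈ range I, ∑ j ∈ range (d + 1),
        (Nat.casesOn (i + 1 + j) 0 fun k => conj (κ k) : ℂ) *
          (x ^ (i + 1) * hf (F (i + 1)) (A j)) =
        x ^ (i + 1) * hf (F (i + 1)) (∑ j ∈ range (d + 1), κ (j + i) • A j) := by
      intro i _
      rw [Helper33.DC.hf_sum (F (i + 1)) (range (d + 1)) (fun j => κ (j + i)) A, mul_sum]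
      refine sum_congr rfl fun j _ => ?_
      have h6 : i + 1 + j = (j + i) + 1 := by omega
      rw [h6]
      show conj (κ (j + i)) * _ = _
      ring
    rw [sum_congr rfl h5, h3] at h2
    rw [hF0, ← hx]
    have h7 : ∀ i, (fun k => eval η ((ta β a (f k)).coeff (i + 1))) = F (i + 1) := fun i => by
      rw [hF]
    simp only [h7]
    linear_combination h2
  rw [main]
  refine (dvd_neg).2 (dvd_sum fun i _ => ?_)
  by_cases hi : i < q
  · rw [hκ' i hi, gq_zero, mul_zero]
    exact dvd_zero _
  · exact dvd_mul_of_dvd_left (pow_dvd_pow _ (by omega)) _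

end Pool.Agent.Helper68.DC
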